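import Pool.Agent.T2h85.HW.Base
import Pool.Agent.X288.L2.Inst

/-!
# Rational elliptic curves over number fields: Artin twists on the line `Re s = 3/2`

`E : y² = x³ + a x + b` is an elliptic curve over `ℚ` with a newform (`IsModular`; by the modularity
theorem this is every elliptic curve over `ℚ`, and for the quadratic twists of `X_0(11)` and `X_0(14)` it
is proved here), `K` any number field and `ρ` an irreducible Artin representation of `K`.  If `F/K` is an
extension, then `L(E/F, s)` is a product of such functions `L(E/K, ρ, s)`.  Their meromorphic continuation
is not known in general.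

The theorem says that on the boundary `Re s = 3/2` of the half plane of absolute convergence the squares
of the orders of all these functions (all `ρ` and all points of the line) have sum at most
`β = c + 4 · mean of max (fix(g) - c, 0)` for every `c ≥ 0`, where `fix(g)` is the number of the
embeddings of `K` fixed by the element `g` of the Galois group of the normal closure of `K`.  So
`β = [K : ℚ]` for `c = [K : ℚ]`, and `β = 1 + 4δ` for `c = 1`, where `δ` is the proportion of the elements
without fixed embeddings (`β ≤ 5/2` if the Galois group is the full symmetric group on at least three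
embeddings).  The bound is halved for a function at a point that is not real, and for a character that
is not real.  If `β < 2`, in particular for `K = ℚ`, there is therefore no zero and no pole, with at most
one exception: one `ρ` with real character, at the real point `3/2`, of order `±1`; for `K = ℚ` its
dimension is at most two.  The same holds for `L(E/F, s)` for all extensions `F` of `K`.

The proof uses the theorem of Rankin and Selberg for the newform (the mean of `a_p²/p` is one), Hasse's
bound, the theorem of Chebotarev in the form of analytic densities, and Bessel's inequality.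
-/

set_option autoImplicit false

namespace Pool.Agent.Results.MP_bf9450_nt.ArtinTwistsOneExceptional

open NumberField
open Pool.Agent.Y722.EP (IsModular)
open Pool.Agent.W353.EF (perm derangements)
open Pool.Agent.T2h85.HW (edgeConst Bessel NoZerosPoles BaseChange)

/-- **Artin twists of a modular elliptic curve.**  Let `E : y² = x³ + a x + b` be a modular elliptic curve
over `ℚ` and `K` a number field.
* `Bessel`: the sum of `m_k²` over finitely many different pairs of an irreducible Artin representation
`ρ_k` of `K` and a height `τ_k` is at most `edgeConst K c` for all `c ≥ 0`, where `m_k` is the order of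
`L(E/K, ρ_k, s)` at `3/2 + iτ_k`; and the same for the sizes, without continuation.
* `NoZerosPoles`: `2 m² ≤ edgeConst K c` if `τ ≠ 0` or the character is not real; if `edgeConst K c < 2`
for some `c ≥ 0`, then at most one pair has `m ≠ 0`, and then `τ = 0`, the character is real and
`m = ±1`; if `K = ℚ`, then `m = 0` for all `ρ` of dimension at least three.
* `BaseChange`: the consequences for `L(E/F, s)` for an arbitrary extension `F` of `K`.
The constant `edgeConst K c` is `[K : ℚ]` for `c = [K : ℚ]`, and `1 + 4δ` for `c = 1`, with the proportion
`δ` of the elements of the Galois group without fixed embeddings; `δ ≤ 3/8` if all permutations of the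
`n ≥ 3` embeddings occur.  The quadratic twists of `X_0(11)` and `X_0(14)` are modular. -/
theorem result :
    (∀ a b : ℤ, 4 * a ^ 3 + 27 * b ^ 2 ≠ 0 → IsModular a b →
      ∀ (K : Type) [Field K] [NumberField K],
        Bessel K a b ∧ NoZerosPoles K a b ∧ BaseChange K a b) ∧
    (∀ (K : Type) [Field K] [NumberField K],
      edgeConst K (Module.finrank ℚ K) = Module.finrank ℚ K ∧
      edgeConst K 1 = 1 + 4 * derangements ℚ K ∧
      (Function.Surjective (perm ℚ K) → 3 ≤ Module.finrank ℚ K → derangements ℚ K ≤ 3 / 8)) ∧
    ∀ g : ℤ, g ≠ 0 → IsModular (-13392 * g ^ 2) (-1080432 * g ^ 3) ∧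
      IsModular (5805 * g ^ 2) (-285714 * g ^ 3) := by
  refine ⟨fun a b hab hmod K _ _ => ⟨Pool.Agent.T2h85.HW.bessel_thm hab hmod,
    Pool.Agent.T2h85.HW.noZerosPoles hab hmod, Pool.Agent.T2h85.HW.baseChange hab hmod⟩,
    fun K _ _ => ⟨Pool.Agent.T2h85.HW.edgeConst_finrank K, Pool.Agent.T2h85.HW.edgeConst_one K,
      Pool.Agent.T2h85.HW.derangements_le K⟩,
    fun g hg => ⟨Pool.Agent.X288.L2.modular11 hg, Pool.Agent.X288.L2.modular14 hg⟩⟩

end Pool.Agent.Results.MP_bf9450_nt.ArtinTwistsOneExceptional
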