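import Pool.Agent.T3h87.HK.Twist

/-!
# Rational elliptic curves over many number fields: the primes up to a power of the height, for almost all members of sparse families

`E : y² = f(x)` is an elliptic curve over `ℚ`, `f = x³ + ... ∈ ℤ[x]`, and `K` a number field.  The logarithmic derivative of
`L(E/K, s)` is `- ∑ a_v log(q_v) q_v ^ (-s)` over the prime ideals `v` of `K` (with the norms `q_v`), up to the powers of the
prime ideals, which contribute a function that is holomorphic for `Re s > 1`; here `a_v` is the trace of the Frobenius on the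
inertia invariants, which is `q_v` minus the number of the solutions of `y² = f(x)` in the residue field if `v` does not divide twice
the discriminant of `f`.  If `L(E/K, s)` is entire, satisfies the functional equation of the question, and has its zeros in the strip
`1/2 < Re s < 3/2` on the line `Re s = 1`, then the sums `∑ a_v log(q_v)`, `q_v ≤ x`, are at most `x ^ (1 + δ)` for large `x`; and the
same for the twists of `L(E/K, s)`.  Conversely, a continuation of the logarithmic derivative to `Re s > 1` without poles follows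
from such bounds for all `x`.  Nothing is known about the continuation for general `K`.

The theorem says that these bounds hold, for all `x` between `X` and a fixed power of the size of the coefficients, at the same
time for ALL number fields `K` of a given sequence of fields of bounded degree (the first `x ^ (1 / M)` of them; for example all
fields of degree `≤ n`, ordered by the discriminant) and ALL weights of a given sequence (for example characters), for almost all
curves of a family.  The family is any polynomial family `y² = P(t_1, ..., t_D, x)` over `ℤ`, `P = x³ + ...`, for which the means of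
the traces over all parameters modulo `p` are bounded (Part 1), for example the families with a free constant term (Part 2) and
families of quadratic twists (Part 3), for which the means are zero. The parameters are independent random members of sparse
families of integers, of the six kinds `Kind` (in the file `Pool.Agent.T3h87.LT.Kinds`): automatic sets (for example missing digits);
random integers whose blocks of digits can be exchanged; rearrangements of given digits; palindromes; residues with small Fourier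
coefficients; integer parts of functions of non-integral order.  `Fam` is a random integer, given by finitely many values with
weights, with a size.

Method: only the prime ideals of degree one matter, where the trace is that of the curve over `ℤ / p`, so that the sums over the
prime ideals are sums over the prime numbers with weights; for functions of the residues with values in `[0, 1]` the deviation of
such a sum is at most the square root of the sum of the means, for almost all members (`Pool.Agent.T3h87.LT.All`).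
-/

set_option autoImplicit false

namespace Pool.Agent.Results.MP_bf9450_nt.SparseFamilies

open Finset Polynomial NumberField IsDedekindDomain Filter
open Pool.Agent.T3h87.LT (Fam Kind)

/-- The trace of the Frobenius for the curve `y² = f(x)` over the finite field `k`, where `f = x³ + ...`: the number of the elements
of `k` minus the number of the points outside of infinity. -/
noncomputable def trace (k : Type) [CommRing k] (f : ℤ[X]) : ℝ :=
  (Nat.card k : ℝ) - Nat.card {P : k × k // P.2 ^ 2 = (f.map (Int.castRingHom k)).eval P.1}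

/-- The polynomial `P(c_1, ..., c_D, x)`. -/
noncomputable def member {D : ℕ} (P : (MvPolynomial (Fin D) ℤ)[X]) (c : Fin D → ℤ) : ℤ[X] := P.map (MvPolynomial.eval c)

/-- The numbers `α v` may be the coefficients of the L-function of `y² = f(x)` over `K`: they are at most `2 √q_v` in absolute value,
and equal to the traces for the prime ideals `v` which do not divide `2 z`. -/
def IsCoefficients {K : Type} [Field K] [NumberField K] (f : ℤ[X]) (z : ℤ) (α : HeightOneSpectrum (𝓞 K) → ℝ) : Prop :=
  (∀ v, |α v| ≤ 2 * √(Ideal.absNorm v.asIdeal : ℝ)) ∧ ∀ v, ((2 * z : ℤ) : 𝓞 K) ∉ v.asIdeal → α v = trace (𝓞 K ⧸ v.asIdeal) f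

/-- The sum `∑ χ(v) α(v) log(q_v)` over the prime ideals `v` of `K` with `q_v ≤ x`. -/
noncomputable def primeSum {K : Type} [Field K] [NumberField K] (χ α : HeightOneSpectrum (𝓞 K) → ℝ) (x : ℕ) : ℝ :=
  ∑ᶠ v ∈ {v : HeightOneSpectrum (𝓞 K) | Ideal.absNorm v.asIdeal ≤ x}, χ v * (α v * Real.log (Ideal.absNorm v.asIdeal))

/-- For all odd primes `p` the mean of the traces of the members of the family over all parameters modulo `p` is at most `C` in
absolute value. -/
def MeansBounded {D : ℕ} (P : (MvPolynomial (Fin D) ℤ)[X]) (C : ℝ) : Prop :=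
  ∀ p : ℕ, p.Prime → p ≠ 2 →
    |∑ t ∈ Fintype.piFinset (fun _ : Fin D => range p), trace (ZMod p) (member P (fun l => (t l : ℤ)))| ≤ C * (p : ℝ) ^ D

/-- For all fields `K j` with `(j + 1) ^ M ≤ x` and all choices of the coefficients of the L-function at the prime ideals which
divide `2 Z(c)`: the sum `∑ χ_j(v) a_v log(q_v)`, `q_v ≤ x`, over the prime ideals of `K j` is at most `x ^ (1 + δ)` in absolute
value. -/
def Good {D : ℕ} (P : (MvPolynomial (Fin D) ℤ)[X]) (Z : MvPolynomial (Fin D) ℤ) (δ : ℝ) (M : ℕ) (K : ℕ → Type) [∀ j, Field (K j)]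
    [∀ j, NumberField (K j)] (χ : ∀ j, HeightOneSpectrum (𝓞 (K j)) → ℝ) (x : ℕ) (c : Fin D → ℤ) : Prop :=
  ∀ j : ℕ, (j + 1) ^ M ≤ x → ∀ α : HeightOneSpectrum (𝓞 (K j)) → ℝ, IsCoefficients (member P c) (MvPolynomial.eval c Z) α →
    |primeSum (χ j) α x| ≤ (x : ℝ) ^ (1 + δ)

open Classical in
/-- Let `𝓕₁, ..., 𝓕_D` be kinds of sparse families (`Kind`), `n ≥ 0` and `0 < δ ≤ 1`. There are `W`, `a`, `M` and `η > 0` such that
for all `κ₁, ..., κ_D ≠ 0` and all sufficiently large `X` the following holds for all members `f l` of `𝓕 l (κ l)`, all sequences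
`K j` of number fields of degree at most `n`, and all functions `χ j` on the prime ideals of `K j` with values in `[-1, 1]`. Let
`c₁, ..., c_D` be independent random integers, `c_l` with the distribution of `f l`. Up to a probability of at most
`X ^ (-η) ∑ (1 + |log Z_l|) ^ a`, where `Z_l` is the size of `f l`, the curve `y² = P(c, x)` is `Good` for ALL `x ≥ X` with
`x ^ W ≤ Z_l` for all `l`. -/
def Holds {D : ℕ} (P : (MvPolynomial (Fin D) ℤ)[X]) (Z : MvPolynomial (Fin D) ℤ) : Prop :=
  ∀ 𝓕 : Fin D → ℤ → Set Fam, (∀ l, Kind (𝓕 l)) → ∀ (n : ℕ) (δ : ℝ), 0 < δ → δ ≤ 1 →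
    ∃ (W a M : ℕ) (η : ℝ), 1 ≤ W ∧ 1 ≤ M ∧ 0 < η ∧ ∀ κ : Fin D → ℤ, (∀ l, κ l ≠ 0) → ∃ X₀ : ℕ, ∀ X : ℕ, X₀ ≤ X →
    ∀ f : Fin D → Fam, (∀ l, f l ∈ 𝓕 l (κ l)) → ∀ (K : ℕ → Type) [∀ j, Field (K j)] [∀ j, NumberField (K j)],
    (∀ j, Module.finrank ℚ (K j) ≤ n) → ∀ χ : ∀ j, HeightOneSpectrum (𝓞 (K j)) → ℝ, (∀ j v, |χ j v| ≤ 1) →
      ∑ i ∈ (Fintype.piFinset fun l => (f l).set).filter (fun i => ¬ ∀ x : ℕ, X ≤ x → (∀ l, (x : ℝ) ^ W ≤ (f l).size) →
        Good P Z δ M K χ x (fun l => (f l).val (i l))), ∏ l, (f l).wt (i l) ≤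
      (∑ l, (1 + |Real.log (f l).size|) ^ a) * (X : ℝ) ^ (-η)

lemma primeSum_eq {K : Type} [Field K] [NumberField K] (χ α : HeightOneSpectrum (𝓞 K) → ℝ) (x : ℕ) :
    primeSum χ α x = ∑ v ∈ Pool.Agent.N842.HS.VT K x, χ v * (α v * Real.log (Ideal.absNorm v.asIdeal)) := by
  have h1 : {v : HeightOneSpectrum (𝓞 K) | Ideal.absNorm v.asIdeal ≤ x} =
      ((Pool.Agent.N842.HS.VT K x : Finset (HeightOneSpectrum (𝓞 K))) : Set (HeightOneSpectrum (𝓞 K))) := by
    ext v
    rw [mem_coe, Pool.Agent.N842.HS.mem_VT]
    exact Iff.rfl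
  unfold primeSum
  rw [h1, finsum_mem_coe_finset]

theorem holds_main {D : ℕ} (P : (MvPolynomial (Fin D) ℤ)[X]) (hP : P.Monic) (hd : P.natDegree = 3) (C : ℝ) (hC : 0 ≤ C)
    (hmean : ∀ p : ℕ, p.Prime → p ≠ 2 → |Pool.Agent.N794.CG.meanD p D (fun m => Pool.Agent.T3h87.HK.tr (ZMod p) (Pool.Agent.T3h87.HK.spec P m))| ≤ C)
    (Z : MvPolynomial (Fin D) ℤ) (hZ : Z ≠ 0) : Holds P Z := by
  classical
  intro 𝓕 h𝓕 n δ hδ hδ1
  obtain ⟨W, a, M, η, hW, hM, hη, H⟩ := Pool.Agent.T3h87.HK.hk_main D 𝓕 h𝓕 P hP hd C hC hmean Z hZ n δ hδ hδ1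
  refine ⟨W, a, M, η, hW, hM, hη, fun κ hκ => ?_⟩
  obtain ⟨X₀, J⟩ := H κ hκ
  refine ⟨X₀, fun X hX f hf K _ _ hn χ hχ => ?_⟩
  refine J X hX f hf K (fun j => by rw [RingOfIntegers.rank]; exact hn j) χ hχ _ (filter_subset _ _) fun i hi => ?_
  have h1 := (mem_filter.1 hi).2
  unfold Good at h1
  push Not at h1
  obtain ⟨x, q1, q2, j, q3, α, q4, q5⟩ := h1
  refine ⟨x, q1, q2, j, q3, α, q4, ?_⟩
  rw [primeSum_eq] at q5
  exact q5

lemma meanD_of {D : ℕ} (P : (MvPolynomial (Fin D) ℤ)[X]) (C : ℝ) (h : MeansBounded P C) (p : ℕ) (hp : p.Prime) (h2 : p ≠ 2) :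
    |Pool.Agent.N794.CG.meanD p D (fun m => Pool.Agent.T3h87.HK.tr (ZMod p) (Pool.Agent.T3h87.HK.spec P m))| ≤ C := by
  have hp0 : (0 : ℝ) < p := by exact_mod_cast hp.pos
  have h1 : |∑ t ∈ Fintype.piFinset (fun _ : Fin D => range p),
      Pool.Agent.T3h87.HK.tr (ZMod p) (Pool.Agent.T3h87.HK.spec P (fun l => (t l : ℤ)))| ≤ C * (p : ℝ) ^ D := h p hp h2
  rw [Pool.Agent.N794.CG.meanD_eq, abs_mul, abs_of_pos (by positivity : (0 : ℝ) < 1 / (p : ℝ) ^ D), div_mul_eq_mul_div, one_mul,
    div_le_iff₀ (by positivity)]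
  exact h1

/-- **Part 1.** Let `P = x³ + ...` be a polynomial in `x` over `ℤ[t_1, ..., t_D]`, such that the means of the traces of the curves
`y² = P(t, x)` over all parameters modulo `p` are bounded.  Then `Holds P Z` for every nonzero polynomial `Z` (for example the
discriminant): for the curves `E : y² = P(c, x)`, where `c_1, ..., c_D` are independent random members of sparse families of sizes
`Z_1, ..., Z_D`, with a very small probability of an exception: the sums `∑ χ_j(v) a_v(E) log(q_v)` over the prime ideals `v` of `K_j`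
with `q_v ≤ x` are at most `x ^ (1 + δ)`, for ALL `x` between `X` and a fixed power of the sizes, and the first `x ^ (1 / M)` members
of an arbitrary sequence of number fields `K_j` of bounded degree with functions `χ_j` with values in `[-1, 1]`.

**Part 2.** This is the case for the families `y² = Q(t_1, ..., t_D, x) + t_0`, `Q = x³ + ...` arbitrary.

**Part 3.** This is the case for the families `y² = x³ + A(t_1, ..., t_D) t_0² x + B(t_1, ..., t_D) t_0³` of quadratic twists, with
arbitrary `A`, `B`. -/
theorem result :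
    (∀ (D : ℕ) (P : (MvPolynomial (Fin D) ℤ)[X]), P.Monic → P.natDegree = 3 → ∀ C : ℝ, 0 ≤ C → MeansBounded P C →
      ∀ Z : MvPolynomial (Fin D) ℤ, Z ≠ 0 → Holds P Z) ∧
    (∀ (D : ℕ) (Q : (MvPolynomial (Fin D) ℤ)[X]), Q.Monic → Q.natDegree = 3 → ∀ Z : MvPolynomial (Fin (D + 1)) ℤ, Z ≠ 0 →
      Holds (Q.map (MvPolynomial.rename Fin.succ).toRingHom + C (MvPolynomial.X 0)) Z) ∧
    (∀ (D : ℕ) (A B : MvPolynomial (Fin D) ℤ) (Z : MvPolynomial (Fin (D + 1)) ℤ), Z ≠ 0 →
      Holds (X ^ 3 + C (MvPolynomial.rename Fin.succ A * MvPolynomial.X 0 ^ 2) * X +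
        C (MvPolynomial.rename Fin.succ B * MvPolynomial.X 0 ^ 3)) Z) := by
  refine ⟨fun D P hP hd C hC hm Z hZ => holds_main P hP hd C hC (fun p hp h2 => meanD_of P C hm p hp h2) Z hZ,
    fun D Q hQ hd Z hZ => ?_, fun D A B Z hZ => ?_⟩
  · obtain ⟨h1, h2⟩ := Pool.Agent.T3h87.HK.addFree_monic Q hQ hd
    refine holds_main _ h1 h2 0 le_rfl (fun p hp hp2 => ?_) Z hZ
    have h3 := Pool.Agent.T3h87.HK.mean_addFree Q p hp hp2
    rw [h3, abs_zero]
  · obtain ⟨h1, h2⟩ := Pool.Agent.T3h87.HK.twists_monic A B
    refine holds_main _ h1 h2 0 le_rfl (fun p hp hp2 => ?_) Z hZ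
    have h3 := Pool.Agent.T3h87.HK.mean_twists A B p hp hp2
    rw [h3, abs_zero]

end Pool.Agent.Results.MP_bf9450_nt.SparseFamilies
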